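import Mathlib

namespace Pool.Agent.H.MP_4c107d_co
open Finset

theorem subsum {Y : Type} [DecidableEq Y] (d : Y → ℕ) (hd : ∀ y, 1 ≤ d y) :
    ∀ (c : ℕ) (s : Finset Y), s.card = c → ∑ y ∈ s, d y + 1 ≤ 2 * s.card →
      ∀ t, t ≤ ∑ y ∈ s, d y → ∃ U ⊆ s, ∑ y ∈ U, d y = t := by
  intro c
  induction c with
  | zero => intro s hs h; omega
  | succ c ih =>
    intro s hs h t ht
    by_cases h2 : ∃ x ∈ s, 2 ≤ d x
    · obtain ⟨x, hx, hx2⟩ := h2
      have hsum := Finset.add_sum_erase s d hx
      have hc : (s.erase x).card = c := by rw [Finset.card_erase_of_mem hx]; omega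
      have hge : (s.erase x).card ≤ ∑ y ∈ s.erase x, d y := by
        calc (s.erase x).card = ∑ y ∈ s.erase x, 1 := by simp
          _ ≤ _ := Finset.sum_le_sum fun y _ => hd y
      have hinv : ∑ y ∈ s.erase x, d y + 1 ≤ 2 * (s.erase x).card := by omega
      by_cases hle : t ≤ ∑ y ∈ s.erase x, d y
      · obtain ⟨U, hU, hUs⟩ := ih _ hc hinv t hle
        exact ⟨U, hU.trans (Finset.erase_subset _ _), hUs⟩
      · obtain ⟨U, hU, hUs⟩ := ih _ hc hinv (t - d x) (by omega)
        have hxU : x ∉ U := fun hh => by simpa using hU hh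
        refine ⟨insert x U, Finset.insert_subset hx (hU.trans (Finset.erase_subset _ _)), ?_⟩
        rw [Finset.sum_insert hxU]; omega
    · push Not at h2
      have h1 : ∀ x ∈ s, d x = 1 := fun x hx => by have := h2 x hx; have := hd x; omega
      have hsc : ∑ y ∈ s, d y = s.card := by
        rw [Finset.sum_congr rfl h1]; simp
      obtain ⟨U, hU, hUc⟩ := Finset.exists_subset_card_eq (s := s) (n := t) (by omega)
      refine ⟨U, hU, ?_⟩
      rw [Finset.sum_congr rfl (fun x hx => h1 x (hU hx))]; simp [hUc]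

theorem realize {α A : Type} [DecidableEq α] [DecidableEq A] (z : α → ℕ) (s : Finset α) :
    ∀ W : Finset A, ∑ a ∈ s, z a ≤ W.card → ∃ F : α → Finset A,
      (∀ a ∈ s, F a ⊆ W ∧ (F a).card = z a) ∧
      ∀ a ∈ s, ∀ a' ∈ s, a ≠ a' → Disjoint (F a) (F a') := by
  induction s using Finset.induction_on with
  | empty => intro W _; exact ⟨fun _ => ∅, by simp, by simp⟩
  | insert x s hx ih =>
    intro W h
    rw [Finset.sum_insert hx] at h
    obtain ⟨U, hU, hUc⟩ := Finset.exists_subset_card_eq (s := W) (n := z x) (by omega)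
    obtain ⟨F, hF1, hF2⟩ := ih (W \ U) (by rw [Finset.card_sdiff_of_subset hU]; omega)
    have key : ∀ a ∈ s, Disjoint U (F a) := fun a ha =>
      Finset.disjoint_left.2 fun u hu hh => (Finset.mem_sdiff.1 ((hF1 a ha).1 hh)).2 hu
    refine ⟨Function.update F x U, ?_, ?_⟩
    · intro a ha
      rcases Finset.mem_insert.1 ha with rfl | ha
      · simp [hU, hUc]
      · have : a ≠ x := fun h => hx (h ▸ ha)
        rw [Function.update_of_ne this]
        exact ⟨(hF1 a ha).1.trans Finset.sdiff_subset, (hF1 a ha).2⟩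
    · intro a ha0 a' ha' hne
      rcases Finset.mem_insert.1 ha0 with rfl | ha
      · rcases Finset.mem_insert.1 ha' with rfl | ha'
        · exact absurd rfl hne
        · rw [Function.update_self, Function.update_of_ne hne.symm]; exact key _ ha'
      · have h1 : a ≠ x := fun h => hx (h ▸ ha)
        have hk := key _ ha
        rcases Finset.mem_insert.1 ha' with rfl | ha'
        · rw [Function.update_self, Function.update_of_ne hne]; exact hk.symm
        · have h2 : a' ≠ x := fun h => hx (h ▸ ha')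
          rw [Function.update_of_ne h1, Function.update_of_ne h2]; exact hF2 a ha a' ha' hne

section perm
variable {A : Type} [Fintype A] [DecidableEq A]

def act (γ : Equiv.Perm A) (S : Finset A) : Finset A := S.map γ.toEmbedding

omit [Fintype A] [DecidableEq A] in
theorem mem_act (γ : Equiv.Perm A) (S : Finset A) (a : A) : a ∈ act γ S ↔ γ.symm a ∈ S := by
  simp [act]

omit [Fintype A] [DecidableEq A] in
theorem act_card (γ : Equiv.Perm A) (S : Finset A) : (act γ S).card = S.card := by simp [act]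

omit [Fintype A] [DecidableEq A] in
theorem act_mul (γ δ : Equiv.Perm A) (S : Finset A) : act (γ * δ) S = act γ (act δ S) := by
  ext a; simp [mem_act, Equiv.Perm.mul_def]

omit [Fintype A] [DecidableEq A] in
theorem act_one (S : Finset A) : act 1 S = S := by
  ext a; simp [mem_act, Equiv.Perm.one_def]

omit [Fintype A] in
theorem act_swap (S : Finset A) (a b : A) (h : a ∈ S ↔ b ∈ S) : act (Equiv.swap a b) S = S := by
  ext c
  rw [mem_act, Equiv.symm_swap, Equiv.swap_apply_def]
  split_ifs with h1 h2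
  · subst h1; exact h.symm
  · subst h2; exact h
  · rfl

omit [Fintype A] [DecidableEq A] in
theorem act_disj (γ : Equiv.Perm A) (S T : Finset A) (h : Disjoint S T) :
    Disjoint (act γ S) (act γ T) := by
  rw [Finset.disjoint_left] at h ⊢
  intro a h1 h2
  exact h ((mem_act _ _ _).1 h1) ((mem_act _ _ _).1 h2)

theorem ex_act (S T : Finset A) (h : S.card = T.card) : ∃ γ, act γ S = T := by
  obtain ⟨γ, hγ⟩ := Equiv.Perm.exists_map_finset_eq S T h
  exact ⟨γ, hγ⟩

theorem ex_act2 (S T : Finset A) (h : S.card = T.card) (x a u a' : A) (hx : x ∈ S) (ha : a ∈ T)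
    (hu : u ∉ S) (ha' : a' ∉ T) : ∃ γ, act γ S = T ∧ γ x = a ∧ γ u = a' := by
  obtain ⟨γ, hγ⟩ := ex_act S T h
  have h1 : γ x ∈ T := by rw [← hγ, mem_act]; simpa using hx
  have h2 : γ u ∉ T := by rw [← hγ, mem_act]; simpa using hu
  refine ⟨Equiv.swap (γ u) a' * (Equiv.swap (γ x) a * γ), ?_, ?_, ?_⟩
  · rw [act_mul, act_mul, hγ, act_swap T _ _ (by simp [h1, ha]), act_swap T _ _ (by simp [h2, ha'])]
  · simp only [Equiv.Perm.coe_mul, Function.comp_apply, Equiv.swap_apply_left]
    apply Equiv.swap_apply_of_ne_of_ne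
    · rintro rfl; exact h2 ha
    · rintro rfl; exact ha' ha
  · simp only [Equiv.Perm.coe_mul, Function.comp_apply]
    rw [Equiv.swap_apply_of_ne_of_ne (a := γ x) (b := a) (x := γ u), Equiv.swap_apply_left]
    · intro hh; exact h2 (hh ▸ h1)
    · intro hh; exact h2 (hh ▸ ha)

end perm

theorem CR {I Y Sl B L : Type} [Fintype I] [Fintype Y] [Fintype Sl] [Fintype L] [DecidableEq I]
    [DecidableEq Y] [DecidableEq Sl] [DecidableEq B] [DecidableEq L]
    (lab : I × Y → L) (labs : Sl → L) (bs : Sl → B)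
    (H1 : ∀ σ σ', bs σ = bs σ' → labs σ = labs σ' → σ = σ')
    (H2 : ∀ l, (univ.filter fun p => lab p = l).card ≤ (univ.filter fun σ => labs σ = l).card)
    (H3 : ∀ p, Fintype.card Y + Fintype.card L * Fintype.card Y <
      (univ.filter fun q => lab q = lab p).card) :
    ∃ f : I × Y → Sl, Function.Injective f ∧ (∀ p, labs (f p) = lab p) ∧
      ∀ i y y', bs (f (i, y)) = bs (f (i, y')) → y = y' := by
  classical
  have h0 : ∃ f : I × Y → Sl, Function.Injective f ∧ (∀ p, labs (f p) = lab p) := by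
    have he : ∀ l, Nonempty ({p // lab p = l} ↪ {σ // labs σ = l}) := fun l =>
      Function.Embedding.nonempty_of_card_le (by
        rw [Fintype.card_subtype, Fintype.card_subtype]; exact H2 l)
    let e := fun l => Classical.choice (he l)
    have hh : ∀ l p (hp : lab p = l) q (hq : lab q = l),
        (e l ⟨p, hp⟩).1 = (e l ⟨q, hq⟩).1 → p = q := fun l p hp q hq h => by
      have := (e l).injective (Subtype.ext h)
      exact congrArg Subtype.val this
    refine ⟨fun p => (e (lab p) ⟨p, rfl⟩).1, ?_, fun p => (e (lab p) ⟨p, rfl⟩).2⟩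
    intro p q hpq
    have h1 : lab p = lab q := by
      rw [← (e (lab p) ⟨p, rfl⟩).2, ← (e (lab q) ⟨q, rfl⟩).2]; exact congrArg labs hpq
    have h2 : ∀ l (hl : lab q = l), (e (lab q) ⟨q, rfl⟩).1 = (e l ⟨q, hl⟩).1 := by
      intro l hl; subst hl; rfl
    exact hh (lab p) p rfl q h1.symm (hpq.trans (h2 _ h1.symm))
  let cf : (I × Y → Sl) → Finset (I × Y × Y) := fun f =>
    univ.filter fun t => t.2.1 ≠ t.2.2 ∧ bs (f (t.1, t.2.1)) = bs (f (t.1, t.2.2))
  obtain ⟨f, hf, hmin⟩ := Finset.exists_min_image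
    (univ.filter fun f : I × Y → Sl => Function.Injective f ∧ (∀ p, labs (f p) = lab p))
    (fun f => (cf f).card) (by obtain ⟨f, hf⟩ := h0; exact ⟨f, by simpa using hf⟩)
  obtain ⟨hinj, hlab⟩ := (Finset.mem_filter.1 hf).2
  refine ⟨f, hinj, hlab, ?_⟩
  intro i y y' hb
  by_contra hne
  have huniq : ∀ p q, bs (f p) = bs (f q) → lab p = lab q → p = q := fun p q h1 h2 =>
    hinj (H1 _ _ h1 (by rw [hlab, hlab, h2]))
  set b := bs (f (i, y)) with hbdef
  let bad1 : Finset (I × Y) := univ.filter fun q => lab q = lab (i, y) ∧ ∃ z, bs (f q) = bs (f (i, z))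
  let at_b : Finset (I × Y) := univ.filter fun q => bs (f q) = b
  let bad2 : Finset (I × Y) := (at_b.image Prod.fst) ×ˢ univ
  have c1 : bad1.card ≤ Fintype.card Y := by
    have : bad1.card ≤ (univ.image fun z => bs (f (i, z))).card := by
      apply Finset.card_le_card_of_injOn (fun q => bs (f q))
      · intro q hq
        obtain ⟨_, z, hz⟩ := (Finset.mem_filter.1 hq).2
        simp only [coe_image, coe_univ, Set.image_univ, Set.mem_range]
        exact ⟨z, hz.symm⟩
      · intro q hq q' hq' h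
        exact huniq _ _ h ((Finset.mem_filter.1 hq).2.1.trans (Finset.mem_filter.1 hq').2.1.symm)
    exact this.trans (Finset.card_image_le.trans (by simp))
  have c2 : at_b.card ≤ Fintype.card L := by
    rw [← Finset.card_univ]
    apply Finset.card_le_card_of_injOn lab (by intro q _; simp)
    intro q hq q' hq' h
    exact huniq _ _ ((Finset.mem_filter.1 hq).2.trans (Finset.mem_filter.1 hq').2.symm) h
  have c3 : bad2.card ≤ Fintype.card L * Fintype.card Y := by
    rw [Finset.card_product, Finset.card_univ]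
    exact Nat.mul_le_mul_right _ (Finset.card_image_le.trans c2)
  obtain ⟨q, hq1, hq2⟩ : ∃ q ∈ univ.filter (fun q => lab q = lab (i, y)), q ∉ bad1 ∪ bad2 := by
    apply Finset.exists_mem_notMem_of_card_lt_card
    have := Finset.card_union_le bad1 bad2
    have := H3 (i, y)
    omega
  obtain ⟨j, z⟩ := q
  have hql : lab (j, z) = lab (i, y) := (Finset.mem_filter.1 hq1).2
  have hq3 : ∀ w, bs (f (j, z)) ≠ bs (f (i, w)) := fun w hw =>
    hq2 (Finset.mem_union_left _ (Finset.mem_filter.2 ⟨Finset.mem_univ _, hql, w, hw⟩))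
  have hq4 : ∀ w, bs (f (j, w)) ≠ b := fun w hw =>
    hq2 (Finset.mem_union_right _ (Finset.mem_product.2
      ⟨Finset.mem_image.2 ⟨(j, w), Finset.mem_filter.2 ⟨Finset.mem_univ _, hw⟩, rfl⟩,
        Finset.mem_univ _⟩))
  have hji : j ≠ i := by rintro rfl; exact hq4 y rfl
  let f' : I × Y → Sl := f ∘ Equiv.swap (i, y) (j, z)
  have hf' : f' ∈ univ.filter fun f : I × Y → Sl =>
      Function.Injective f ∧ (∀ p, labs (f p) = lab p) := by
    refine Finset.mem_filter.2 ⟨Finset.mem_univ _, hinj.comp (Equiv.injective _), fun p => ?_⟩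
    simp only [f', Function.comp_apply, hlab, Equiv.swap_apply_def]
    split_ifs with h1 h2
    · rw [h1, hql]
    · rw [h2, hql]
    · rfl
  have e1 : f' (i, y) = f (j, z) := by simp [f']
  have e2 : f' (j, z) = f (i, y) := by simp [f']
  have e3 : ∀ p, p ≠ (i, y) → p ≠ (j, z) → f' p = f p := fun p h1 h2 => by
    simp only [f', Function.comp_apply]; rw [Equiv.swap_apply_of_ne_of_ne h1 h2]
  have k1 : ∀ a u u', u ≠ u' → bs (f' (a, u)) = bs (f' (a, u')) →
      (a, u) ≠ (i, y) ∧ (a, u) ≠ (j, z) := by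
    intro a u u' hu h
    constructor
    · intro hh
      obtain ⟨rfl, rfl⟩ := Prod.mk.inj hh
      rw [e1, e3 (a, u') (by simp [hu.symm]) (by simp [hji.symm])] at h
      exact hq3 _ h
    · intro hh
      obtain ⟨rfl, rfl⟩ := Prod.mk.inj hh
      rw [e2, e3 (a, u') (by simp [hji]) (by simp [hu.symm])] at h
      exact hq4 _ h.symm
  have hsub : cf f' ⊂ cf f := by
    rw [Finset.ssubset_iff_of_subset]
    · refine ⟨(i, y, y'), Finset.mem_filter.2 ⟨Finset.mem_univ _, hne, hb⟩, fun hh => ?_⟩
      obtain ⟨h1, h2⟩ := (Finset.mem_filter.1 hh).2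
      exact (k1 _ _ _ h1 h2).1 rfl
    · intro t ht
      obtain ⟨h1, h2⟩ := (Finset.mem_filter.1 ht).2
      have a1 := k1 _ _ _ h1 h2
      have a2 := k1 _ _ _ h1.symm h2.symm
      refine Finset.mem_filter.2 ⟨Finset.mem_univ _, h1, ?_⟩
      rw [← e3 _ a1.1 a1.2, ← e3 _ a2.1 a2.2]; exact h2
  have := hmin f' hf'
  have := Finset.card_lt_card hsub
  omega

end Pool.Agent.H.MP_4c107d_co
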