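import Pool.Agent.H.MP_4c107d_co.A

namespace Pool.Agent.H.MP_4c107d_co
open Finset

variable {A Y : Type} [Fintype A] [DecidableEq A] [Fintype Y] [DecidableEq Y]

def ee (S : Finset A) : Finset A → ℤ := fun T => if S = T then 1 else 0

def vv (N : Y → Finset A) (γ : Equiv.Perm A) : Finset A → ℤ := ∑ y, ee (act γ (N y))

def Lam (N P : Y → Finset A) : AddSubgroup (Finset A → ℤ) where
  carrier := {x | ∃ μ ν : Equiv.Perm A → ℤ, ∑ γ, μ γ = 0 ∧ ∑ γ, ν γ = 0 ∧
    ∑ γ, μ γ • vv N γ = x + ∑ γ, ν γ • vv P γ}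
  add_mem' := by
    rintro x x' ⟨μ, ν, h1, h2, h3⟩ ⟨μ', ν', h1', h2', h3'⟩
    refine ⟨μ + μ', ν + ν', by simp [Finset.sum_add_distrib, h1, h1'],
      by simp [Finset.sum_add_distrib, h2, h2'], ?_⟩
    simp only [Pi.add_apply, add_smul, Finset.sum_add_distrib, h3, h3']; abel
  zero_mem' := ⟨0, 0, by simp, by simp, by simp⟩
  neg_mem' := by
    rintro x ⟨μ, ν, h1, h2, h3⟩
    refine ⟨-μ, -ν, by simp [h1], by simp [h2], ?_⟩
    simp only [Pi.neg_apply, neg_smul, Finset.sum_neg_distrib, h3]; abel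

omit [DecidableEq Y] in
theorem lamN (N P : Y → Finset A) (γ γ' : Equiv.Perm A) : vv N γ - vv N γ' ∈ Lam N P := by
  refine ⟨Pi.single γ 1 - Pi.single γ' 1, 0, by simp [Finset.sum_sub_distrib], by simp, ?_⟩
  simp [sub_smul, Finset.sum_sub_distrib, Pi.single_apply, ite_smul]

omit [DecidableEq Y] in
theorem lamP (N P : Y → Finset A) (γ γ' : Equiv.Perm A) : vv P γ - vv P γ' ∈ Lam N P := by
  refine ⟨0, Pi.single γ' 1 - Pi.single γ 1, by simp, by simp [Finset.sum_sub_distrib], ?_⟩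
  simp [sub_smul, Finset.sum_sub_distrib, Pi.single_apply, ite_smul]

omit [DecidableEq Y] in
theorem all_eq (N P : Y → Finset A) (h : ∀ y, (N y).card = (P y).card) :
    ∑ γ, vv N γ = ∑ γ, vv P γ := by
  unfold vv
  rw [Finset.sum_comm, Finset.sum_comm (f := fun γ y => ee (act γ (P y)))]
  refine Finset.sum_congr rfl fun y _ => ?_
  obtain ⟨σ, hσ⟩ := ex_act (P y) (N y) (h y).symm
  rw [← hσ]
  exact Fintype.sum_equiv (Equiv.mulRight σ) _ _ fun γ => by simp [act_mul]

omit [Fintype A] in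
theorem one_out (Λ : AddSubgroup (Finset A → ℤ)) (Q : Y → Finset A) (γ γ' : Equiv.Perm A) (y0 : Y)
    (hQ : vv Q γ - vv Q γ' ∈ Λ) (h : ∀ y, y ≠ y0 → ee (act γ (Q y)) - ee (act γ' (Q y)) ∈ Λ) :
    ee (act γ (Q y0)) - ee (act γ' (Q y0)) ∈ Λ := by
  have h1 : ∑ y ∈ univ.erase y0, (ee (act γ (Q y)) - ee (act γ' (Q y))) ∈ Λ :=
    Λ.sum_mem fun y hy => h y (Finset.ne_of_mem_erase hy)
  have h2 := Λ.sub_mem hQ h1
  unfold vv at h2
  rw [← Finset.sum_sub_distrib, ← Finset.add_sum_erase _ _ (Finset.mem_univ y0)] at h2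
  simpa using h2

theorem conn (Λ : AddSubgroup (Finset A → ℤ)) (c : ℕ)
    (h : ∀ S : Finset A, S.card = c → ∀ a ∈ S, ∀ a', a' ∉ S →
      ee S - ee (act (Equiv.swap a a') S) ∈ Λ) (S S' : Finset A) (hS : S.card = c)
    (hS' : S'.card = c) : ee S - ee S' ∈ Λ := by
  obtain ⟨γ, rfl⟩ := ex_act S S' (hS.trans hS'.symm)
  clear hS'
  induction γ using Equiv.Perm.swap_induction_on with
  | one => simp [act_one]
  | swap_mul f a a' _ ih =>
    rw [act_mul]
    have hc : (act f S).card = c := by rw [act_card, hS]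
    have : ee (act f S) - ee (act (Equiv.swap a a') (act f S)) ∈ Λ := by
      by_cases h1 : a ∈ act f S
      · by_cases h2 : a' ∈ act f S
        · rw [act_swap _ _ _ (by simp [h1, h2])]; simp
        · exact h _ hc a h1 a' h2
      · by_cases h2 : a' ∈ act f S
        · rw [Equiv.swap_comm]; exact h _ hc a' h2 a h1
        · rw [act_swap _ _ _ (by simp [h1, h2])]; simp
    simpa using Λ.add_mem ih this

theorem lat (N P : Y → Finset A) (hc : ∀ y, (N y).card = (P y).card)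
    (hne : ∀ y, (N y).Nonempty) (hP : ∀ y y', y ≠ y' → Disjoint (P y) (P y'))
    (x : A) (y1 : Y) (hx : x ∈ N y1) (hx' : ∀ y, y ≠ y1 → x ∉ N y)
    (hu : ∀ a a' : A, a ≠ a' → ∃ u, ∀ y, u ∉ N y) (y : Y) (S S' : Finset A)
    (hS : S.card = (N y).card) (hS' : S'.card = (N y).card) : ee S - ee S' ∈ Lam N P := by
  have st1 : ∀ S S' : Finset A, S.card = (N y1).card → S'.card = (N y1).card →
      ee S - ee S' ∈ Lam N P := by
    apply conn
    intro S hS a ha a' ha'
    obtain ⟨u, hu⟩ := hu a a' (by rintro rfl; exact ha' ha)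
    obtain ⟨γ, h1, h2, h3⟩ := ex_act2 (N y1) S hS.symm x a u a' hx ha (hu y1) ha'
    have := one_out (Lam N P) N γ (Equiv.swap a a' * γ) y1 (lamN N P _ _) (fun y hy => by
      rw [act_mul, act_swap]
      · simp
      · rw [mem_act, mem_act, ← h2, ← h3]; simp [hx' y hy, hu y])
    rwa [act_mul, h1] at this
  by_cases hy : y = y1
  · subst hy; exact st1 S S' hS hS'
  revert S S'
  apply conn
  intro S hS a ha a' ha'
  have hPne : ∀ y, (P y).Nonempty := fun y => by
    rw [← Finset.card_pos, ← hc, Finset.card_pos]; exact hne y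
  obtain ⟨p, hp⟩ := hPne y
  obtain ⟨p1, hp1⟩ := hPne y1
  have hp1' : p1 ∉ P y := fun hh => Finset.disjoint_left.1 (hP y y1 hy) hh hp1
  obtain ⟨γ, h1, h2, h3⟩ := ex_act2 (P y) S (by rw [hS, hc]) p a p1 a' hp ha hp1' ha'
  have := one_out (Lam N P) P γ (Equiv.swap a a' * γ) y (lamP N P _ _) (fun z hz => by
    by_cases hz1 : z = y1
    · subst hz1
      exact st1 _ _ (by rw [act_card, hc]) (by rw [act_card, hc])
    · rw [act_mul, act_swap]
      · simp
      · rw [mem_act, mem_act, ← h2, ← h3]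
        have e1 : p ∉ P z := fun hh => Finset.disjoint_left.1 (hP z y hz) hh hp
        have e2 : p1 ∉ P z := fun hh => Finset.disjoint_left.1 (hP z y1 hz1) hh hp1
        simp [e1, e2])
  rwa [act_mul, h1] at this

end Pool.Agent.H.MP_4c107d_co
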