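import Pool.Agent.H.MP_4c107d_co.B

namespace Pool.Agent.H.MP_4c107d_co
open Finset

variable {A : Type} [Fintype A] [DecidableEq A] {n : ℕ} {I : Type} [DecidableEq I]

def Pack (N : I → Fin (n + 1) → Finset A) (s : Finset I) (c : ℕ) : Prop :=
  ∃ (γ : I → Equiv.Perm A) (β : I → Fin (n + 1) → ℕ), (∀ i ∈ s, Function.Injective (β i)) ∧
    (∀ i ∈ s, ∀ y, β i y < c) ∧ ∀ i ∈ s, ∀ j ∈ s, i ≠ j → ∀ y z, β i y = β j z →
      Disjoint (act (γ i) (N i y)) (act (γ j) (N j z))

omit [Fintype A] [DecidableEq A] in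
theorem pack_union (N : I → Fin (n + 1) → Finset A) (s t : Finset I) (c d : ℕ)
    (h1 : Pack N s c) (h2 : Pack N t d) : Pack N (s ∪ t) (c + d) := by
  obtain ⟨γ, β, a1, a2, a3⟩ := h1
  obtain ⟨γ', β', b1, b2, b3⟩ := h2
  have ht : ∀ i ∈ s ∪ t, i ∉ s → i ∈ t := fun i hi h => (Finset.mem_union.1 hi).resolve_left h
  refine ⟨fun i => if i ∈ s then γ i else γ' i, fun i y => if i ∈ s then β i y else c + β' i y,
    ?_, ?_, ?_⟩
  · intro i hi y z h
    by_cases hs : i ∈ s
    · simp only [hs, if_true] at h; exact a1 i hs h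
    · simp only [hs, if_false] at h; exact b1 i (ht i hi hs) (by omega)
  · intro i hi y
    by_cases hs : i ∈ s
    · simp only [hs, if_true]; have := a2 i hs y; omega
    · simp only [hs, if_false]; have := b2 i (ht i hi hs) y; omega
  · intro i hi j hj hij y z h
    by_cases hs : i ∈ s <;> by_cases hs' : j ∈ s <;> simp only [hs, hs', if_true, if_false] at h ⊢
    · exact a3 i hs j hs' hij y z h
    · have := a2 i hs y; omega
    · have := a2 j hs' z; omega
    · exact b3 i (ht i hi hs) j (ht j hj hs') hij y z (by omega)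

omit [Fintype A] [DecidableEq A] in
theorem pack_mk (N : I → Fin (n + 1) → Finset A) (s : Finset I) (B : Type) [Fintype B]
    (γ : s → Equiv.Perm A) (β : s → Fin (n + 1) → B) (h1 : ∀ i, Function.Injective (β i))
    (h2 : ∀ i j, i ≠ j → ∀ y z, β i y = β j z →
      Disjoint (act (γ i) (N i y)) (act (γ j) (N j z))) : Pack N s (Fintype.card B) := by
  let e := Fintype.equivFin B
  refine ⟨fun i => if h : i ∈ s then γ ⟨i, h⟩ else 1,
    fun i y => if h : i ∈ s then (e (β ⟨i, h⟩ y)).1 else 0, ?_, ?_, ?_⟩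
  · intro i hi y z h
    simp only [hi, dif_pos] at h
    exact h1 _ (e.injective (Fin.ext h))
  · intro i hi y
    simp only [hi, dif_pos]; exact Fin.is_lt _
  · intro i hi j hj hij y z h
    simp only [hi, hj, dif_pos] at h ⊢
    exact h2 ⟨i, hi⟩ ⟨j, hj⟩ (fun hh => hij (congrArg Subtype.val hh)) y z (e.injective (Fin.ext h))

structure Good (N : Fin (n + 1) → Finset A) : Prop where
  sum : ∑ y, (N y).card = 2 * n + 1
  ne : ∀ y, (N y).Nonempty
  leaf : ∃ x y1, x ∈ N y1 ∧ ∀ y, y ≠ y1 → x ∉ N y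
  out : ∀ a a' : A, a ≠ a' → ∃ u, ∀ y, u ∉ N y

theorem exP (hA : Fintype.card A = 2 * n + 1) (N : Fin (n + 1) → Finset A) (h : Good N) :
    ∃ P : Fin (n + 1) → Finset A, (∀ y, (N y).card = (P y).card) ∧
      ∀ y y', y ≠ y' → Disjoint (P y) (P y') := by
  obtain ⟨P, h1, h2⟩ := realize (fun y => (N y).card) univ (univ : Finset A)
    (by rw [h.sum, Finset.card_univ, hA])
  exact ⟨P, fun y => (h1 y (mem_univ _)).2.symm, fun y y' => h2 y (mem_univ _) y' (mem_univ _)⟩

theorem pack_block (hA : Fintype.card A = 2 * n + 1) (N : I → Fin (n + 1) → Finset A)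
    (N0 : Fin (n + 1) → Finset A) (h : Good N0) (s : Finset I) (hs : ∀ i ∈ s, N i = N0)
    (hc : s.card = Fintype.card (Equiv.Perm A × Fin (n + 1))) : Pack N s s.card := by
  obtain ⟨P, h1, h2⟩ := exP hA N0 h
  choose σ hσ using fun y => ex_act (P y) (N0 y) (h1 y).symm
  let e : s ≃ Equiv.Perm A × Fin (n + 1) := Fintype.equivOfCardEq (by rw [← hc]; simp)
  rw [hc]
  apply pack_mk N s _ (fun i => (e i).1) (fun i y => ((e i).1 * σ y, (e i).2 + y))
  · intro i y z hh
    exact add_left_cancel (Prod.mk.inj hh).2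
  · intro i j hij y z hh
    obtain ⟨e1, e2⟩ := Prod.mk.inj hh
    rw [hs i i.2, hs j j.2, ← hσ y, ← hσ z, ← act_mul, ← act_mul, e1]
    apply act_disj
    apply h2
    rintro rfl
    exact hij (e.injective (Prod.ext (mul_right_cancel e1) (add_right_cancel e2)))

theorem special (hA : Fintype.card A = 2 * n + 1) (N0 τ : Fin (n + 1) → Finset A) (h0 : Good N0)
    (h : Good τ) : ∃ (F : Fin n × Fin (n + 1) → Finset A) (g : Fin n × Fin (n + 1) → Fin (n + 1)),
      (∀ a, (F a).card = (N0 a.2).card) ∧ (∀ a, Disjoint (F a) (τ (g a))) ∧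
      ∀ a a', a ≠ a' → g a = g a' → Disjoint (F a) (F a') := by
  let e : ℕ → ℕ := fun j => if h : j < n + 1 then (τ ⟨j, h⟩).card else 0
  have he : ∀ y : Fin (n + 1), e y = (τ y).card := fun y => by simp only [e]; rw [dif_pos y.2]
  have hsum : ∑ j ∈ range (n + 1), e j = 2 * n + 1 := by
    rw [← h.sum, ← Fin.sum_univ_eq_sum_range]; exact Finset.sum_congr rfl fun y _ => he y
  have hle : ∀ c, c ≤ n + 1 → ∑ j ∈ range c, e j ≤ 2 * n + 1 := fun c hc => by
    rw [← hsum]; exact Finset.sum_le_sum_of_subset (Finset.range_mono hc)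
  have hU : ∀ c : Fin n, ∃ U : Finset (Fin (n + 1)), ∑ y ∈ U, (N0 y).card =
      ∑ j ∈ range (c + 1), e j := fun c => by
    obtain ⟨U, _, hU⟩ := subsum (fun y => (N0 y).card) (fun y => Finset.card_pos.2 (h0.ne y)) _
      univ rfl (by rw [h0.sum]; simp; omega) (∑ j ∈ range (c + 1), e j)
      (by rw [h0.sum]; exact hle _ (by omega))
    exact ⟨U, hU⟩
  choose U hU using hU
  let g : Fin n × Fin (n + 1) → Fin (n + 1) := fun a =>
    if a.2 ∈ U a.1 then a.1.succ else a.1.castSucc
  have hg : ∀ y : Fin (n + 1), ∑ a ∈ univ.filter (fun a => g a = y), (N0 a.2).card ≤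
      (univ \ τ y).card := by
    intro y
    rw [Finset.card_sdiff_of_subset (Finset.subset_univ _), Finset.card_univ, hA, Finset.sum_filter,
      Fintype.sum_prod_type]
    have h1 : ∀ c : Fin n, (∑ z, if g (c, z) = y then (N0 z).card else 0) =
        (if (c : ℕ) + 1 = y then ∑ j ∈ range y, e j else 0) +
        (if (c : ℕ) = y then 2 * n + 1 - ∑ j ∈ range (y + 1), e j else 0) := by
      intro c
      have hs := Finset.sum_add_sum_compl (U c) (fun y => (N0 y).card)
      rw [h0.sum, hU c] at hs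
      rw [← Finset.sum_add_sum_compl (U c)]
      congr 1
      · rw [Finset.sum_congr rfl (g := fun z => if (c : ℕ) + 1 = y then (N0 z).card else 0)]
        · split_ifs with hh
          · rw [hU c, hh]
          · simp
        · intro z hz; simp [g, hz, Fin.ext_iff]
      · rw [Finset.sum_congr rfl (g := fun z => if (c : ℕ) = y then (N0 z).card else 0)]
        · split_ifs with hh
          · rw [← hh]; omega
          · simp
        · intro z hz; simp [g, Finset.mem_compl.1 hz, Fin.ext_iff]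
    simp only [h1, Finset.sum_add_distrib]
    have h2 : ∀ (p : Fin n → Prop) [DecidablePred p] (v : ℕ), (∀ c c', p c → p c' → c = c') →
        (∑ c, if p c then v else 0) ≤ v := by
      intro p _ v hp
      rw [← Finset.sum_filter, Finset.sum_const, smul_eq_mul]
      have : (univ.filter p).card ≤ 1 := Finset.card_le_one.2 fun a ha b hb =>
        hp a b (Finset.mem_filter.1 ha).2 (Finset.mem_filter.1 hb).2
      nlinarith
    have h3 := h2 (fun c => (c : ℕ) + 1 = y) (∑ j ∈ range y, e j)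
      (fun c c' a b => Fin.ext (by omega))
    have h4 := h2 (fun c => (c : ℕ) = y) (2 * n + 1 - ∑ j ∈ range (y + 1), e j)
      (fun c c' a b => Fin.ext (by omega))
    have h5 := Finset.sum_range_succ e y
    have h6 := hle (y + 1) (by omega)
    rw [he] at h5
    omega
  choose F hF1 hF2 using fun y => realize (fun a : Fin n × Fin (n + 1) => (N0 a.2).card)
    (univ.filter (fun a => g a = y)) (univ \ τ y) (hg y)
  refine ⟨fun a => F (g a) a, g, fun a => (hF1 _ a (by simp)).2, fun a => ?_, fun a a' hne hh => ?_⟩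
  · exact Finset.disjoint_left.2 fun u hu hh =>
      (Finset.mem_sdiff.1 ((hF1 _ a (by simp)).1 hu)).2 hh
  · show Disjoint (F (g a) a) (F (g a') a')
    rw [← hh]; exact hF2 _ a (by simp) a' (by simp [hh]) hne

end Pool.Agent.H.MP_4c107d_co
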