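import Pool.Agent.H.MP_4c107d_co.C

namespace Pool.Agent.H.MP_4c107d_co
open Finset

variable {A : Type} [Fintype A] [DecidableEq A] {n : ℕ}

theorem card_ee {α : Type} [Fintype α] (f : α → Finset A) (l : Finset A) :
    ((univ.filter fun p => f p = l).card : ℤ) = (∑ p, ee (f p)) l := by
  rw [Finset.card_filter]; simp [ee, Finset.sum_apply]

theorem sum_sig {Γ M : Type} [Fintype Γ] [AddCommGroup M] (μ : Γ → ℤ) (h : ∀ γ, 0 ≤ μ γ)
    (v : Γ → M) : ∑ it : (Σ γ, Fin (μ γ).toNat), v it.1 = ∑ γ, μ γ • v γ := by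
  rw [Fintype.sum_sigma]
  refine Finset.sum_congr rfl fun γ _ => ?_
  simp only [Finset.sum_const, Finset.card_univ, Fintype.card_fin]
  rw [← natCast_zsmul, Int.toNat_of_nonneg (h γ)]

theorem card_sig {Γ : Type} [Fintype Γ] (μ : Γ → ℤ) (h : ∀ γ, 0 ≤ μ γ) :
    (Fintype.card (Σ γ, Fin (μ γ).toNat) : ℤ) = ∑ γ, μ γ := by
  have := sum_sig μ h (fun _ => (1 : ℤ))
  simpa using this

theorem assemble {I : Type} [DecidableEq I] (N : I → Fin (n + 1) → Finset A)
    (N0 P : Fin (n + 1) → Finset A) (hPne : ∀ y, (P y).Nonempty)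
    (hP : ∀ y y', y ≠ y' → Disjoint (P y) (P y')) (R s0 : Finset I) (hd : Disjoint R s0)
    (hs0 : ∀ i ∈ s0, N i = N0) (F : R → Fin n × Fin (n + 1) → Finset A)
    (g : R → Fin n × Fin (n + 1) → Fin (n + 1)) (hF0 : ∀ i a, (F i a).Nonempty)
    (hF1 : ∀ (i : R) a, Disjoint (F i a) (N i (g i a)))
    (hF2 : ∀ i a a', a ≠ a' → g i a = g i a' → Disjoint (F i a) (F i a'))
    (μ ν : Equiv.Perm A → ℤ)
    (hμ : ∀ γ, ((n + 1 + Fintype.card (Finset A) * (n + 1) + 1 : ℕ) : ℤ) ≤ μ γ)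
    (hν : ∀ γ, 0 ≤ ν γ) (h1 : ∑ γ, μ γ = s0.card) (h2 : ∑ γ, ν γ + R.card * n = s0.card)
    (heq : ∑ γ, μ γ • vv N0 γ = ∑ i, ∑ a, ee (F i a) + ∑ γ, ν γ • vv P γ) :
    Pack N (R ∪ s0) (R.card + s0.card) := by
  have hμ0 : ∀ γ, 0 ≤ μ γ := fun γ => le_trans (Int.natCast_nonneg _) (hμ γ)
  let It := Σ γ, Fin (μ γ).toNat
  let Bt := Σ γ, Fin (ν γ).toNat
  let lab : It × Fin (n + 1) → Finset A := fun p => act p.1.1 (N0 p.2)
  let labs : (R × (Fin n × Fin (n + 1))) ⊕ (Bt × Fin (n + 1)) → Finset A :=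
    Sum.elim (fun p => F p.1 p.2) (fun p => act p.1.1 (P p.2))
  let bs : (R × (Fin n × Fin (n + 1))) ⊕ (Bt × Fin (n + 1)) → (R × Fin (n + 1)) ⊕ Bt :=
    Sum.map (fun p => (p.1, g p.1 p.2)) (fun p => p.1)
  have Hd : ∀ σ σ', σ ≠ σ' → bs σ = bs σ' → Disjoint (labs σ) (labs σ') := by
    rintro (⟨i, a⟩ | ⟨b, y⟩) (⟨i', a'⟩ | ⟨b', y'⟩) hne h
    · simp only [bs, Sum.map_inl, Sum.inl.injEq, Prod.mk.injEq] at h
      obtain ⟨rfl, h⟩ := h
      exact hF2 i a a' (by rintro rfl; exact hne rfl) h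
    · simp [bs] at h
    · simp [bs] at h
    · simp only [bs, Sum.map_inr, Sum.inr.injEq] at h
      subst h
      exact act_disj _ _ _ (hP y y' (by rintro rfl; exact hne rfl))
  have Hn : ∀ σ, (labs σ).Nonempty := by
    rintro (⟨i, a⟩ | ⟨b, y⟩)
    · exact hF0 i a
    · show (act _ _).Nonempty
      rw [← Finset.card_pos, act_card, Finset.card_pos]; exact hPne y
  obtain ⟨f, f1, f2, f3⟩ := CR lab labs bs (fun σ σ' h h' => by
      by_contra hne
      have := Hd σ σ' hne h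
      rw [h', disjoint_self] at this
      exact (Hn σ').ne_empty this) (fun l => by
      have e1 : ∑ p, ee (lab p) = ∑ σ, ee (labs σ) := by
        rw [Fintype.sum_sum_type, Fintype.sum_prod_type, Fintype.sum_prod_type,
          Fintype.sum_prod_type (f := fun p => ee (labs (Sum.inr p)))]
        exact (sum_sig μ hμ0 (vv N0)).trans (heq.trans (congrArg _ (sum_sig ν hν (vv P)).symm))
      have e2 := card_ee lab l
      have e3 := card_ee labs l
      rw [e1, ← e3] at e2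
      exact le_of_eq (by exact_mod_cast e2)) (fun p => by
      have : (μ p.1.1).toNat ≤ (univ.filter fun q => lab q = lab p).card := by
        calc (μ p.1.1).toNat = (univ : Finset (Fin (μ p.1.1).toNat)).card := by simp
          _ ≤ _ := by
            apply Finset.card_le_card_of_injOn (fun k => ((⟨p.1.1, k⟩ : It), p.2))
            · intro k _; simp [lab]
            · intro k _ k' _ h
              simpa [It] using h
      have := hμ p.1.1
      simp only [Fintype.card_fin]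
      omega)
  let e : s0 ≃ It := Fintype.equivOfCardEq (by
    have := card_sig μ hμ0
    rw [h1] at this
    rw [Fintype.card_coe]; exact_mod_cast this.symm)
  have hB : Fintype.card ((R × Fin (n + 1)) ⊕ Bt) = R.card + s0.card := by
    have := card_sig ν hν
    rw [Fintype.card_sum, Fintype.card_prod, Fintype.card_coe, Fintype.card_fin]
    have h3 : (Fintype.card Bt : ℤ) + R.card * n = s0.card := by rw [← h2, ← this]
    have h4 : Fintype.card Bt + R.card * n = s0.card := by exact_mod_cast h3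
    rw [← h4]; ring
  rw [← hB]
  have hR : ∀ i : ↥(R ∪ s0), i.1 ∉ s0 → i.1 ∈ R := fun i h =>
    (Finset.mem_union.1 i.2).resolve_right h
  have key : ∀ (i : R) y (p : It × Fin (n + 1)), Sum.inl (i, y) = bs (f p) →
      Disjoint (act 1 (N i y)) (lab p) := by
    intro i y p h
    rw [act_one, ← f2]
    rcases hσ : f p with ⟨i', a⟩ | ⟨b, z⟩
    · rw [hσ] at h
      simp only [bs, Sum.map_inl, Sum.inl.injEq, Prod.mk.injEq] at h
      obtain ⟨rfl, rfl⟩ := h
      exact (hF1 i a).symm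
    · rw [hσ] at h; simp [bs] at h
  apply pack_mk N (R ∪ s0) _ (fun i => if h : i.1 ∈ s0 then (e ⟨i.1, h⟩).1 else 1)
    (fun i y => if h : i.1 ∈ s0 then bs (f (e ⟨i.1, h⟩, y)) else Sum.inl (⟨i.1, hR i h⟩, y))
  · intro i y z h
    by_cases hi : i.1 ∈ s0
    · simp only [hi, dif_pos] at h; exact f3 _ _ _ h
    · simp only [hi, dif_neg, not_false_eq_true] at h; simpa using h
  · intro i j hij y z h
    by_cases hi : i.1 ∈ s0 <;> by_cases hj : j.1 ∈ s0 <;>
      simp only [hi, hj, dif_pos, dif_neg, not_false_eq_true] at h ⊢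
    · rw [hs0 _ hi, hs0 _ hj]
      have := Hd _ _ (fun hh => hij (Subtype.ext (congrArg (fun t : s0 => t.1)
        (e.injective (Prod.mk.inj (f1 hh)).1)))) h
      rwa [f2, f2] at this
    · rw [hs0 _ hi]; exact (key ⟨j.1, hR j hj⟩ z _ h.symm).symm
    · rw [hs0 _ hj]; exact key ⟨i.1, hR i hi⟩ y _ h
    · exfalso
      simp only [Sum.inl.injEq, Prod.mk.injEq, Subtype.mk.injEq] at h
      exact hij (Subtype.ext h.1)

theorem mainA (hA : Fintype.card A = 2 * n + 1) (N0 : Fin (n + 1) → Finset A) (h0 : Good N0)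
    (ρ : ℕ) : ∃ t0, ∀ (I : Type) [DecidableEq I] (N : I → Fin (n + 1) → Finset A)
      (R s0 : Finset I), Disjoint R s0 → R.card ≤ ρ → (∀ i ∈ R, Good (N i)) →
      (∀ i ∈ s0, N i = N0) → t0 ≤ s0.card → Pack N (R ∪ s0) (R.card + s0.card) := by
  obtain ⟨P, hc, hP⟩ := exP hA N0 h0
  obtain ⟨x, y1, hx, hx'⟩ := h0.leaf
  have L := lat N0 P hc h0.ne hP x y1 hx hx' h0.out
  have hPne : ∀ y, (P y).Nonempty := fun y => by
    rw [← Finset.card_pos, ← hc, Finset.card_pos]; exact h0.ne y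
  choose F g hF0 hF1 hF2 using fun τ : {τ // Good (n := n) (A := A) τ} => special hA N0 τ.1 h0 τ.2
  have w1 : ∀ τ, ∃ μ ν : Equiv.Perm A → ℤ, ∑ γ, μ γ = n ∧ ∑ γ, ν γ = 0 ∧
      ∑ γ, μ γ • vv N0 γ = ∑ a, ee (F τ a) + ∑ γ, ν γ • vv P γ := by
    intro τ
    obtain ⟨μ, ν, a1, a2, a3⟩ : ∑ a : Fin n × Fin (n + 1), (ee (F τ a) - ee (N0 a.2)) ∈ Lam N0 P :=
      (Lam N0 P).sum_mem fun a _ => L a.2 _ _ (hF0 τ a) rfl
    refine ⟨μ + Pi.single 1 n, ν, by simp [Finset.sum_add_distrib, a1], a2, ?_⟩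
    have : ∑ a : Fin n × Fin (n + 1), ee (N0 a.2) = (n : ℤ) • vv N0 1 := by
      rw [Fintype.sum_prod_type]; simp [vv, act_one]
    rw [Finset.sum_sub_distrib, this] at a3
    simp only [Pi.add_apply, add_smul, Finset.sum_add_distrib, a3, Pi.single_apply, ite_smul,
      zero_smul, Finset.sum_ite_eq', Finset.mem_univ, if_true]
    abel
  have w0 : ∃ μ ν : Equiv.Perm A → ℤ, ∑ γ, μ γ = 1 ∧ ∑ γ, ν γ = 1 ∧
      ∑ γ, μ γ • vv N0 γ = ∑ γ, ν γ • vv P γ := by
    obtain ⟨μ, ν, a1, a2, a3⟩ : ∑ y, (ee (P y) - ee (N0 y)) ∈ Lam N0 P :=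
      (Lam N0 P).sum_mem fun y _ => L y _ _ (hc y).symm rfl
    refine ⟨μ + Pi.single 1 1, ν + Pi.single 1 1, by simp [Finset.sum_add_distrib, a1],
      by simp [Finset.sum_add_distrib, a2], ?_⟩
    rw [Finset.sum_sub_distrib] at a3
    simp only [Pi.add_apply, add_smul, Finset.sum_add_distrib, a3, Pi.single_apply, ite_smul,
      zero_smul, Finset.sum_ite_eq', Finset.mem_univ, if_true, one_smul]
    simp only [vv, act_one]
    abel
  choose μ ν a1 a2 a3 using w1
  obtain ⟨μ0, ν0, b1, b2, b3⟩ := w0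
  classical
  obtain ⟨K, hK⟩ : ∃ K : ℕ, ∀ τ γ, -(K : ℤ) ≤ μ τ γ ∧ -(K : ℤ) ≤ ν τ γ ∧ -(K : ℤ) ≤ μ0 γ ∧
      -(K : ℤ) ≤ ν0 γ := by
    obtain ⟨K, hK⟩ := (Set.finite_range fun p : {τ // Good (n := n) (A := A) τ} × Equiv.Perm A =>
      (μ p.1 p.2).natAbs + (ν p.1 p.2).natAbs + (μ0 p.2).natAbs + (ν0 p.2).natAbs).bddAbove
    refine ⟨K, fun τ γ => ?_⟩
    have := hK ⟨(τ, γ), rfl⟩
    simp only at this
    omega
  set M := Fintype.card (Equiv.Perm A) with hM
  have hM0 : 0 < M := Fintype.card_pos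
  set C := n + 1 + Fintype.card (Finset A) * (n + 1) + 1 with hC
  refine ⟨ρ * n + M * ((ρ + M) * K + C), ?_⟩
  intro I _ N R s0 hd hR hG hs0 ht
  have hRn : R.card * n ≤ ρ * n := Nat.mul_le_mul_right _ hR
  set u := s0.card - R.card * n with hu
  have hq : (ρ + M) * K + C ≤ u / M := by
    rw [Nat.le_div_iff_mul_le hM0, mul_comm]; omega
  have hdm := Nat.div_add_mod u M
  have hlt := Nat.mod_lt u hM0
  set q := u / M
  set s := u % M
  let τ : R → {τ // Good (n := n) (A := A) τ} := fun i => ⟨N i, hG i i.2⟩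
  have lb : ∀ (κ : {τ // Good (n := n) (A := A) τ} → ℤ) (κ0 : ℤ), (∀ t, -(K : ℤ) ≤ κ t) →
      -(K : ℤ) ≤ κ0 → (C : ℤ) ≤ ∑ i : R, κ (τ i) + s * κ0 + q := by
    intro κ κ0 k1 k2
    have e1 : ∑ i : R, -(K : ℤ) ≤ ∑ i : R, κ (τ i) := Finset.sum_le_sum fun i _ => k1 _
    simp only [Finset.sum_const, Finset.card_univ, Fintype.card_coe, nsmul_eq_mul] at e1
    have e2 : (((ρ + M) * K + C : ℕ) : ℤ) ≤ q := by exact_mod_cast hq
    push_cast at e2
    have e3 : (R.card : ℤ) ≤ ρ := by exact_mod_cast hR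
    have e4 : (s : ℤ) ≤ M := by exact_mod_cast hlt.le
    have e5 : (0 : ℤ) ≤ K := Int.natCast_nonneg _
    have e6 : (0 : ℤ) ≤ s := Int.natCast_nonneg _
    nlinarith
  have hcast : (s0.card : ℤ) = R.card * n + (M * q + s) := by
    have : s0.card = R.card * n + (M * q + s) := by omega
    exact_mod_cast this
  apply assemble N N0 P hPne hP R s0 hd hs0 (fun i => F (τ i)) (fun i => g (τ i))
    (fun i a => by rw [← Finset.card_pos, hF0, Finset.card_pos]; exact h0.ne _)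
    (fun i a => hF1 (τ i) a) (fun i => hF2 (τ i))
    (fun γ => ∑ i : R, μ (τ i) γ + s * μ0 γ + q) (fun γ => ∑ i : R, ν (τ i) γ + s * ν0 γ + q)
  · intro γ; exact lb (fun t => μ t γ) _ (fun t => (hK t γ).1) (hK ⟨N0, h0⟩ γ).2.2.1
  · intro γ
    exact le_trans (Int.natCast_nonneg _)
      (lb (fun t => ν t γ) _ (fun t => (hK t γ).2.1) (hK ⟨N0, h0⟩ γ).2.2.2)
  · rw [Finset.sum_add_distrib, Finset.sum_add_distrib, Finset.sum_comm, ← Finset.mul_sum, b1, hcast]
    simp [a1, ← hM]; ring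
  · rw [Finset.sum_add_distrib, Finset.sum_add_distrib, Finset.sum_comm, ← Finset.mul_sum, b2, hcast]
    simp [a2, ← hM]; ring
  · simp only [add_smul, Finset.sum_add_distrib, Finset.sum_smul, mul_smul, ← Finset.smul_sum]
    rw [Finset.sum_comm, Finset.sum_comm (f := fun γ (i : R) => ν (τ i) γ • vv P γ), b3,
      all_eq N0 P hc]
    simp only [a3, Finset.sum_add_distrib]
    abel

theorem mainB (hA : Fintype.card A = 2 * n + 1) : ∃ k0, ∀ (I : Type) [DecidableEq I]
    (N : I → Fin (n + 1) → Finset A) (s : Finset I), (∀ i ∈ s, Good (N i)) → k0 ≤ s.card →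
      Pack N s s.card := by
  classical
  set L := Fintype.card (Equiv.Perm A × Fin (n + 1)) with hL
  have hL0 : 0 < L := Fintype.card_pos
  set T := Fintype.card (Fin (n + 1) → Finset A) with hT
  choose t0 ht0 using fun τ : {τ // Good (n := n) (A := A) τ} => mainA hA τ.1 τ.2 (T * L)
  obtain ⟨t1, ht1⟩ := (Set.finite_range t0).bddAbove
  refine ⟨T * t1 + 1, ?_⟩
  intro I _ N s hG hs
  obtain ⟨N0, _, hN0⟩ := Finset.exists_lt_card_fiber_of_mul_lt_card_of_maps_to (s := s)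
    (t := (univ : Finset (Fin (n + 1) → Finset A))) (f := N) (n := t1) (by simp)
    (by rw [Finset.card_univ]; exact hs)
  have h0 : Good N0 := by
    obtain ⟨i, hi⟩ := Finset.card_pos.1 (lt_of_le_of_lt (Nat.zero_le _) hN0)
    rw [← (Finset.mem_filter.1 hi).2]; exact hG i (Finset.mem_filter.1 hi).1
  have ht : t0 ⟨N0, h0⟩ ≤ (s.filter fun i => N i = N0).card :=
    (ht1 ⟨_, rfl⟩).trans hN0.le
  clear hs hN0
  induction s using Finset.strongInduction with
  | H s ih =>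
    by_cases hb : ∃ τ, τ ≠ N0 ∧ L ≤ (s.filter fun i => N i = τ).card
    · obtain ⟨τ, hτ, hb⟩ := hb
      obtain ⟨U, hU, hUc⟩ := Finset.exists_subset_card_eq hb
      have hUs : U ⊆ s := hU.trans (Finset.filter_subset _ _)
      have hUτ : ∀ i ∈ U, N i = τ := fun i hi => (Finset.mem_filter.1 (hU hi)).2
      obtain ⟨i0, hi0⟩ := Finset.card_pos.1 (hUc ▸ hL0)
      have p1 := pack_block hA N τ (hUτ i0 hi0 ▸ hG i0 (hUs hi0)) U hUτ hUc
      have p2 := ih (s \ U) (Finset.sdiff_ssubset hUs ⟨i0, hi0⟩)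
        (fun i hi => hG i (Finset.mem_sdiff.1 hi).1) (ht.trans (Finset.card_le_card fun i hi => by
          obtain ⟨h1, h2⟩ := Finset.mem_filter.1 hi
          exact Finset.mem_filter.2 ⟨Finset.mem_sdiff.2 ⟨h1, fun hh => hτ ((hUτ i hh).symm.trans h2)⟩,
            h2⟩))
      have := pack_union N _ _ _ _ p1 p2
      rwa [Finset.union_sdiff_of_subset hUs, Finset.card_sdiff_of_subset hUs,
        Nat.add_sub_cancel' (Finset.card_le_card hUs)] at this
    · push Not at hb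
      have := ht0 ⟨N0, h0⟩ I N (s.filter fun i => ¬ N i = N0) (s.filter fun i => N i = N0)
        (Finset.disjoint_filter_filter_not _ _ _).symm (by
          rw [hT, ← Finset.card_univ, mul_comm]
          apply Finset.card_le_mul_card_image_of_maps_to (f := N) (by simp)
          intro τ _
          by_cases h : τ = N0
          · rw [Finset.filter_filter, Finset.filter_eq_empty_iff.2 (by
              rintro i _ ⟨h1, h2⟩; exact h1 (h2.trans h))]; simp
          · exact (Finset.card_le_card (Finset.filter_subset_filter _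
              (Finset.filter_subset _ _))).trans (hb τ h).le)
        (fun i hi => hG i (Finset.mem_filter.1 hi).1) (fun i hi => (Finset.mem_filter.1 hi).2) ht
      rwa [Finset.union_comm, Finset.filter_union_filter_not_eq, add_comm,
        Finset.card_filter_add_card_filter_not] at this

end Pool.Agent.H.MP_4c107d_co
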